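import Pool.Agent.FS.AngUniv.Main

/-! Solutions in a subfield give drawings with coordinates in that subfield. -/

namespace Pool.Agent.FS.AngUniv

open Pool.Agent.Lib.MP_a4368a_lc Filter Topology

variable {K : Subfield ℝ}

theorem ite_mem' {p : Prop} [Decidable p] {a b : ℝ} (ha : a ∈ K) (hb : b ∈ K) :
    (if p then a else b) ∈ K := by
  split_ifs
  · exact ha
  · exact hb

theorem ind_mem (p : Prop) : ind p ∈ K := by
  unfold ind
  split_ifs
  · exact one_mem K
  · exact zero_mem K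

theorem abs_mem' {a : ℝ} (h : a ∈ K) : |a| ∈ K := by
  rcases abs_choice a with e | e <;> rw [e]
  · exact h
  · exact neg_mem h

theorem ltv_mem {a b : ℝ} (ha : a ∈ K) (hb : b ∈ K) {j : ℕ} (hj : j ≠ 5) : ltv a b j ∈ K := by
  have h2 : (2 : ℝ) ∈ K := ofNat_mem K 2
  unfold ltv
  rw [if_neg hj]
  split_ifs
  · exact sub_mem hb ha
  · exact mul_mem h2 (ind_mem _)
  · exact sub_mem (mul_mem h2 (ind_mem _)) (one_mem K)
  · exact abs_mem' (sub_mem hb ha)
  · exact div_mem (ind_mem _) (sub_mem hb ha)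
  · exact ind_mem _

theorem aux_mem {x : ℕ → ℝ} (hx : ∀ i, x i ∈ K) (k : ℕ) {a b : ℝ} (ha : a ∈ K) (hb : b ∈ K)
    {j : ℕ} (hj : j ≠ 5) : aux x k a b j ∈ K := by
  unfold aux
  repeat' with_reducible apply ite_mem'
  · exact zero_mem K
  · exact one_mem K
  · exact add_mem ha hb
  · exact mul_mem ha hb
  · exact neg_mem hb
  · exact ind_mem _
  · exact sub_mem ha hb
  · exact sub_mem (one_mem K) (ind_mem _)
  · exact inv_mem (sub_mem ha hb)
  · exact ltv_mem ha hb hj
  · exact ind_mem _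
  · exact ltv_mem hb ha hj
  · exact sub_mem (one_mem K) hb
  · exact mul_mem ha hb
  · exact sub_mem (add_mem ha hb) (mul_mem ha hb)
  · exact mul_mem ha hb
  · exact add_mem ha hb
  · exact hx _

theorem getD_mem {l : List ℝ} (h : ∀ a ∈ l, a ∈ K) (i : ℕ) : l.getD i 0 ∈ K := by
  rcases lt_or_ge i l.length with hi | hi
  · rw [List.getD_eq_getElem _ _ hi]; exact h _ (List.getElem_mem hi)
  · rw [List.getD_eq_default _ _ hi]; exact zero_mem K

theorem fold_mem {x : ℕ → ℝ} (hx : ∀ i, x i ∈ K) (w : List ℕ) :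
    ∀ st : List ℝ, (∀ a ∈ st, a ∈ K) → ∀ a ∈ w.foldl (estep x) st, a ∈ K := by
  induction w with
  | nil => exact fun st h => h
  | cons k w ih =>
    intro st h
    refine ih _ fun a ha => ?_
    rcases List.mem_cons.1 ha with rfl | ha
    · exact aux_mem hx k (getD_mem h 1) (getD_mem h 0) (by omega)
    · exact h _ (List.mem_of_mem_drop ha)

theorem gsol_mem {x : ℕ → ℝ} (hx : ∀ i, x i ∈ K) {v : RV} (hv : v.2 ≠ 5) : gsol x v ∈ K := by
  unfold gsol
  split_ifs
  · exact natCast_mem K _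
  · have := fold_mem hx v.1.dropLast [] (by simp)
    exact aux_mem hx _ (getD_mem this 1) (getD_mem this 0) hv

theorem tse_gsol (φ : Fm) (x : ℕ → ℝ) (hx : φ.Holds x) : RSat (gsol x) (tse φ.code) := by
  have h0 : gsol x vZ = 0 := by simp [gsol, vZ]
  have h1 : gsol x vO = 1 := by simp [gsol, vO]
  have hw : stk φ.code = [(true, φ.code)] := run_fm φ []
  have inv : ∀ i ≤ φ.code.length, ∀ it ∈ stk (φ.code.take i), IsItem x it (gsol x (it.2, 0)) := by
    intro i
    induction i with
    | zero => simp [stk]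
    | succ i ih =>
      intro hi
      rw [stk_succ _ hi]
      have := step_inv h0 h1 (k := φ.code.getD i 0) (st := stk (φ.code.take i))
      rw [xOf_gsol] at this
      exact this (ih (by omega)) (gsol_node x (ih (by omega)))
  rw [tse, if_pos hw]
  intro c hc
  rcases List.mem_cons.1 hc with rfl | hc
  · have := (inv _ le_rfl (true, φ.code) (by rw [List.take_length, hw]; simp)).ev []
    rw [ev_fm] at this
    simp only [List.cons.injEq, and_true] at this
    simp [RHolds, h0, h1, ← this, ind, hx]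
  · obtain ⟨i, hi, hc⟩ := List.mem_flatMap.1 hc
    exact gsol_node x (inv i (List.mem_range.1 hi).le) c hc

theorem gen_five {k : ℕ} (h6 : k ≠ 6) (h7 : k ≠ 7) (A B R : List ℕ) :
    ∀ c ∈ gen k A B R, c.2.1.2 ≠ 5 ∧ c.2.2.1.2 ≠ 5 ∧ c.2.2.2.2 ≠ 5 := by
  unfold gen
  rw [if_neg h6, if_neg h7]
  split_ifs <;> simp [vZ, vO]

theorem tse_five {w : List ℕ} (h : ∀ k ∈ w, k ≠ 6 ∧ k ≠ 7) :
    ∀ c ∈ tse w, c.2.1.2 ≠ 5 ∧ c.2.2.1.2 ≠ 5 ∧ c.2.2.2.2 ≠ 5 := by
  intro c hc
  unfold tse at hc
  split_ifs at hc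
  · rcases List.mem_cons.1 hc with rfl | hc
    · simp [vZ, vO]
    · obtain ⟨i, hi, hc⟩ := List.mem_flatMap.1 hc
      have hi := List.mem_range.1 hi
      have := h _ (List.getElem_mem hi)
      rw [← List.getD_eq_getElem _ 0 hi] at this
      unfold nodeCons at hc
      split_ifs at hc
      · exact gen_five this.1 this.2 _ _ _ c hc
      · simp at hc
  · obtain rfl := List.mem_singleton.1 hc
    simp [vZ, vO]

theorem code_letters (t : Tm) : ∀ k ∈ t.code, k ≠ 6 ∧ k ≠ 7 := by
  induction t with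
  | var i => simp [Tm.code]
  | zero => simp [Tm.code]
  | one => simp [Tm.code]
  | add s t hs ht => simpa [Tm.code, or_imp, forall_and] using ⟨⟨fun k h => (hs k h).1, fun k h => (ht k h).1⟩, fun k h => (hs k h).2, fun k h => (ht k h).2⟩
  | mul s t hs ht => simpa [Tm.code, or_imp, forall_and] using ⟨⟨fun k h => (hs k h).1, fun k h => (ht k h).1⟩, fun k h => (hs k h).2, fun k h => (ht k h).2⟩
  | neg s hs => simpa [Tm.code, or_imp, forall_and] using ⟨fun k h => (hs k h).1, fun k h => (hs k h).2⟩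

theorem eval_congr {x y : ℕ → ℝ} (t : Tm) (h : ∀ i, i + 11 ∈ t.code → x i = y i) :
    t.eval x = t.eval y := by
  induction t with
  | var i => exact h i (by simp [Tm.code])
  | zero => rfl
  | one => rfl
  | add s t hs ht =>
    rw [Tm.eval, Tm.eval, hs fun i hi => h i (by simp [Tm.code, hi]),
      ht fun i hi => h i (by simp [Tm.code, hi])]
  | mul s t hs ht =>
    rw [Tm.eval, Tm.eval, hs fun i hi => h i (by simp [Tm.code, hi]),
      ht fun i hi => h i (by simp [Tm.code, hi])]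
  | neg s hs => rw [Tm.eval, Tm.eval, hs fun i hi => h i (by simp [Tm.code, hi])]

/-- a zero in `K` gives a solution of the system in `K` -/
theorem sys_sol (t : Tm) {x : ℕ → ℝ} (hx : ∀ i, x i ∈ K) (h : t.eval x = 0) :
    ∃ f : RV → ℝ, f vZ = 0 ∧ f vO = 1 ∧ (∀ v, f v ∈ K) ∧ RSat f (sys (Fm.eq t .zero).code) := by
  refine ⟨fun v => if v.2 = 5 then 0 else gsol x v, by simp [gsol, vZ], by simp [gsol, vO],
    fun v => ?_, fun c hc => ?_⟩
  · dsimp only
    split_ifs with hv
    · exact zero_mem K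
    · exact gsol_mem hx hv
  · rcases List.mem_append.1 hc with hc | hc
    · have h5 := tse_five (w := (Fm.eq t .zero).code) (fun k hk => by
        simp only [Fm.code, Tm.code, List.mem_append, List.mem_singleton] at hk
        rcases hk with (hk | rfl) | rfl
        · exact code_letters t k hk
        · omega
        · omega) c hc
      have := tse_gsol (.eq t .zero) x h c hc
      simpa only [RHolds, if_neg h5.1, if_neg h5.2.1, if_neg h5.2.2] using this
    · obtain ⟨v, -, rfl⟩ := List.mem_map.1 hc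
      simp [RHolds, gsol, vZ]

theorem pval_mem {f : RV → ℝ} (hf : ∀ v, f v ∈ K) {t : ℝ} (ht : t ∈ K) (v : PV) :
    pval f t v ∈ K := by
  have h2 : (2 : ℝ) ∈ K := ofNat_mem K 2
  have hs : ∀ a ∈ K, sq2 a ∈ K := fun a ha => sub_mem (neg_mem ha) (div_mem (pow_mem ha 2) h2)
  rcases v with v | ⟨c, j⟩
  · exact add_mem (one_mem K) (mul_mem ht (hf v))
  · refine add_mem (one_mem K) ?_
    have hx := mul_mem ht (hf c.2.1)
    have hy := mul_mem ht (hf c.2.2.1)
    have hz := mul_mem ht (hf c.2.2.2)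
    have a1 := div_mem (add_mem hx hy) h2
    have a2 := div_mem (sub_mem hx hy) h2
    have a3 := div_mem (add_mem hz ht) h2
    have a4 := div_mem (sub_mem hz ht) h2
    unfold dev
    repeat' with_reducible apply ite_mem'
    · exact a1
    · exact neg_mem hy
    · exact neg_mem ht
    · exact a1
    · exact a2
    · exact a3
    · exact a4
    · exact hs _ a1
    · exact hs _ a2
    · exact hs _ a3
    · exact hs _ a4
    · exact div_mem (add_mem (hs _ a1) (hs _ a4)) h2
    · exact div_mem hy h2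
    · exact div_mem (add_mem (div_mem (add_mem (hs _ a1) (hs _ a4)) h2) (div_mem hy h2)) h2
    · exact div_mem (add_mem (hs _ a2) (hs _ a3)) h2
    · exact div_mem ht h2

theorem ev_mem (F : Form) {x : ℝ × ℝ × ℝ} (h : x.1 ∈ K ∧ x.2.1 ∈ K ∧ x.2.2 ∈ K) : ev F x ∈ K :=
  add_mem (add_mem (add_mem (intCast_mem K _) (mul_mem (intCast_mem K _) h.1))
    (mul_mem (intCast_mem K _) h.2.1)) (mul_mem (intCast_mem K _) h.2.2)

theorem PP_mem (cs : List Con) {v : ℕ → ℝ} (hv : ∀ i, v i ∈ K) (u : GV) :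
    (PP cs v u).re ∈ K ∧ (PP cs v u).im ∈ K := by
  have s : ∀ i, v i - 1 ∈ K := fun i => sub_mem (hv i) (one_mem K)
  have hp : (par cs v u.1).1 ∈ K ∧ (par cs v u.1).2.1 ∈ K ∧ (par cs v u.1).2.2 ∈ K := by
    unfold par
    split_ifs
    · exact ⟨s _, s _, s _⟩
    · exact ⟨s _, s _, sub_mem (ev_mem _ ⟨s _, s _, s _⟩)
        (add_mem (mul_mem (ofNat_mem K 1080) (natCast_mem K _)) (ofNat_mem K 396))⟩
  exact ⟨add_mem (intCast_mem K _) (ev_mem _ hp), add_mem (intCast_mem K _) (ev_mem _ hp)⟩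

/-- a solution in `K` gives a drawing with coordinates in `K` -/
theorem draw_of {rs : List RCon} {f : RV → ℝ} (h0 : f vZ = 0) (h1 : f vO = 1) (hf : ∀ v, f v ∈ K)
    (h : RSat f rs) : ∃ p : GV → ℂ, IsDrawing (verts (numb (prims rs))) (edges (numb (prims rs))) p ∧
      (∀ v a b, Adj (edges (numb (prims rs))) v a → Adj (edges (numb (prims rs))) v b → a ≠ b →
        Real.pi / 4 ≤ EuclideanGeometry.angle (p a) (p v) (p b)) ∧
      ∀ v, (p v).re ∈ K ∧ (p v).im ∈ K := by
  set cs := numb (prims rs) with hcs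
  let val : ℕ → ℕ → ℝ := fun m i =>
    ((occs (prims rs))[i]?.map (pval f (1 / ((m : ℝ) + 1)))).getD 1
  have tt : Tendsto (fun m : ℕ => 1 / ((m : ℝ) + 1)) atTop (𝓝[>] 0) :=
    tendsto_nhdsWithin_iff.2 ⟨tendsto_one_div_add_atTop_nhds_zero_nat,
      Eventually.of_forall fun m => Set.mem_Ioi.2 Nat.one_div_pos_of_nat⟩
  have hval : ∀ i, Tendsto (fun m => val m i) atTop (𝓝 1) := fun i => by
    simp only [val]
    cases (occs (prims rs))[i]? with
    | none => simp
    | some v => exact (pval_tendsto f v).comp tt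
  have hsol : ∀ᶠ m in atTop, Sol cs (val m) := Eventually.of_forall fun m d hd => by
    obtain ⟨c, hc, rfl⟩ := List.mem_map.1 hd
    have := mem_occs hc
    simp only [val, get_idx this.1, get_idx this.2.1, get_idx this.2.2, Option.map_some,
      Option.getD_some]
    exact prims_complete h0 h1 h Nat.one_div_pos_of_nat c hc
  have hK : ∀ m i, val m i ∈ K := fun m i => by
    simp only [val]
    cases (occs (prims rs))[i]? with
    | none => exact one_mem K
    | some v => exact pval_mem hf (div_mem (one_mem K) (add_mem (natCast_mem K m) (one_mem K))) v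
  have h1 : ∀ᶠ t in atTop, ∀ u ∈ verts cs, ∀ v ∈ verts cs,
      PP cs (val t) u = PP cs (val t) v → u = v :=
    eventually_list fun u hu => eventually_list fun v hv => ev_distinct hval hsol hu hv
  have h2 : ∀ᶠ t in atTop, ∀ e ∈ edges cs, ∀ v ∈ verts cs,
      PP cs (val t) v ∈ segment ℝ (PP cs (val t) e.1) (PP cs (val t) e.2) → v = e.1 ∨ v = e.2 :=
    eventually_list fun e he => eventually_list fun v hv => ev_notOn hval hsol he hv
  have h3 : ∀ᶠ t in atTop, ∀ v ∈ verts cs, ∀ a ∈ verts cs, ∀ b ∈ verts cs, Adj (edges cs) v a →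
      Adj (edges cs) v b → a ≠ b →
      A (PP cs (val t) a - PP cs (val t) v) (PP cs (val t) b - PP cs (val t) v) := by
    refine eventually_list fun v _ => eventually_list fun a _ => eventually_list fun b _ => ?_
    by_cases h : Adj (edges cs) v a ∧ Adj (edges cs) v b ∧ a ≠ b
    · exact (ev_angle hval hsol h.1 h.2.1 h.2.2).mono fun t ht _ _ _ => ht
    · exact Eventually.of_forall fun t x y z => absurd ⟨x, y, z⟩ h
  obtain ⟨t, a1, a2, a3⟩ := (h1.and (h2.and h3)).exists
  refine ⟨PP cs (val t), ⟨a1, a2⟩, fun v a b ha hb hab => ?_, PP_mem cs (hK t)⟩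
  have x := adj_mem ha
  have y := adj_mem hb
  exact (angle_iff (sub_ne_zero.2 fun h => x.2.2 (a1 _ x.2.1 _ x.1 h).symm)
    (sub_ne_zero.2 fun h => y.2.2 (a1 _ y.2.1 _ y.1 h).symm)).2 (a3 v x.1 a x.2.1 b y.2.1 ha hb hab)

end Pool.Agent.FS.AngUniv
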