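import Pool.Agent.FS.AngUniv.Field

/-! The reduction over a subfield, and the passage from rational points to grid points. -/

namespace Pool.Agent.FS.AngUniv

open N68a2faeb N487b59b3 Pool.Agent.Shared.PolyTime Pool.Agent.Lib.MP_a4368a_lc

set_option synthInstance.maxSize 2000

theorem pt_sys : IsPolyTime fun w : List ℕ => sys (w ++ [0] ++ [5]) := by
  have := pt_tse
  unfold sys
  fun_prop

/-- the graph of a word -/
noncomputable def gr (w : List ℕ) : List ℕ × List (ℕ × ℕ) :=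
  ((verts (numb (prims (sys w)))).map numberOf,
    (edges (numb (prims (sys w)))).map fun e => (numberOf e.1, numberOf e.2))

theorem pt_gr : IsPolyTime fun w : List ℕ => gr (w ++ [0] ++ [5]) := by
  have p3 : IsPolyTime fun y : List ℕ × List (ℕ × ℕ) × ℕ => (y.1, y.2.1) := by fun_prop
  exact p3.comp (pt_inst.comp (pt_numb.comp (pt_prims.comp pt_sys)))

theorem gr_graph (w : List ℕ) : IsGraph (gr w).1 (gr w).2 ∧ Planar (gr w).1 (gr w).2 :=
  ⟨isGraph_map numberOf_injective (edges_wf _), planar_map numberOf_injective (planar _)⟩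

theorem field_iff (t : Tm) (K : Subfield ℝ) :
    (∃ p : ℕ → ℂ, IsDrawing (gr (Fm.eq t .zero).code).1 (gr (Fm.eq t .zero).code).2 p ∧
      (∀ v a b, Adj (gr (Fm.eq t .zero).code).2 v a → Adj (gr (Fm.eq t .zero).code).2 v b → a ≠ b →
        Real.pi / 4 ≤ EuclideanGeometry.angle (p a) (p v) (p b)) ∧
      ∀ v ∈ (gr (Fm.eq t .zero).code).1, (p v).re ∈ K ∧ (p v).im ∈ K) ↔
    ∃ x : ℕ → ℝ, (∀ i, x i ∈ K) ∧ t.eval x = 0 := by
  have hr : Function.Injective (numberOf : GV → ℕ) := numberOf_injective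
  simp only [gr]
  constructor
  · rintro ⟨p, h1, h2, h3⟩
    obtain ⟨x, k1, k2⟩ := sys_field (.eq t .zero) (p := fun v => p (numberOf v))
      (good_of (edges_wf _) ((isDrawing_map hr).1 h1) fun v a b ha hb hab =>
        h2 _ _ _ (adj_map.2 ⟨_, _, ha, rfl, rfl⟩) (adj_map.2 ⟨_, _, hb, rfl, rfl⟩) (hr.ne hab))
      K fun v hv => h3 _ (List.mem_map_of_mem hv)
    refine ⟨fun i => if i + 11 ∈ t.code then x i else 0, fun i => ?_, ?_⟩
    · dsimp only
      split_ifs with hi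
      · exact k2 i (by simp [Fm.code, hi])
      · exact zero_mem K
    · exact (eval_congr t fun i hi => if_pos hi).trans k1
  · rintro ⟨x, hx, h⟩
    obtain ⟨f, h0, h1, hf, hs⟩ := sys_sol t hx h
    obtain ⟨p, a1, a2, a3⟩ := draw_of h0 h1 hf hs
    have e : ∀ v, Function.extend numberOf p 0 (numberOf v) = p v := hr.extend_apply p 0
    refine ⟨Function.extend numberOf p 0, (isDrawing_map hr).2 (by simp only [e]; exact a1), ?_, ?_⟩
    · intro v a b ha hb hab
      obtain ⟨v1, a1, ha', rfl, rfl⟩ := adj_map.1 ha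
      obtain ⟨v2, b1, hb', hv, rfl⟩ := adj_map.1 hb
      obtain rfl := hr hv
      rw [e, e, e]
      exact a2 _ _ _ ha' hb' fun h => hab (by rw [h])
    · intro v hv
      obtain ⟨u, -, rfl⟩ := List.mem_map.1 hv
      rw [e]
      exact a3 u

theorem den_list (l : List ℝ) (h : ∀ a ∈ l, a ∈ (Rat.castHom ℝ).fieldRange) :
    ∃ D : ℕ, 0 < D ∧ ∀ a ∈ l, ∃ m : ℤ, (D : ℝ) * a = m := by
  induction l with
  | nil => exact ⟨1, one_pos, by simp⟩
  | cons b l ih =>
    obtain ⟨D, hD, hl⟩ := ih fun a ha => h a (List.mem_cons_of_mem _ ha)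
    obtain ⟨q, rfl⟩ := RingHom.mem_fieldRange.1 (h b List.mem_cons_self)
    refine ⟨D * q.den, Nat.mul_pos hD q.den_pos, fun a ha => ?_⟩
    rcases List.mem_cons.1 ha with rfl | ha
    · refine ⟨D * q.num, ?_⟩
      have : (q.den : ℝ) * (q : ℝ) = q.num := by exact_mod_cast Rat.den_mul_eq_num q
      simp only [Rat.coe_castHom, Nat.cast_mul, Int.cast_mul, Int.cast_natCast, mul_assoc, this]
    · obtain ⟨m, hm⟩ := hl a ha
      exact ⟨q.den * m, by push_cast; rw [← hm]; ring⟩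

theorem grid_iff {V : List ℕ} {E : List (ℕ × ℕ)} {θ : ℝ} :
    (∃ p : ℕ → ℂ, IsDrawing V E p ∧
      (∀ v a b, Adj E v a → Adj E v b → a ≠ b → θ ≤ EuclideanGeometry.angle (p a) (p v) (p b)) ∧
      ∀ v ∈ V, ∃ m n : ℤ, (p v).re = m ∧ (p v).im = n) ↔
    ∃ p : ℕ → ℂ, IsDrawing V E p ∧
      (∀ v a b, Adj E v a → Adj E v b → a ≠ b → θ ≤ EuclideanGeometry.angle (p a) (p v) (p b)) ∧
      ∀ v ∈ V, (p v).re ∈ (Rat.castHom ℝ).fieldRange ∧ (p v).im ∈ (Rat.castHom ℝ).fieldRange := by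
  constructor
  · rintro ⟨p, h1, h2, h3⟩
    refine ⟨p, h1, h2, fun v hv => ?_⟩
    obtain ⟨m, n, e1, e2⟩ := h3 v hv
    rw [e1, e2]
    exact ⟨intCast_mem _ m, intCast_mem _ n⟩
  · rintro ⟨p, h1, h2, h3⟩
    obtain ⟨D, hD, hl⟩ := den_list (V.flatMap fun v => [(p v).re, (p v).im]) fun a ha => by
      obtain ⟨v, hv, ha⟩ := List.mem_flatMap.1 ha
      simp only [List.mem_cons, List.not_mem_nil, or_false] at ha
      rcases ha with rfl | rfl
      · exact (h3 v hv).1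
      · exact (h3 v hv).2
    have h0 : (D : ℝ) ≠ 0 := by positivity
    have inj : Function.Injective fun z : ℂ => (D : ℝ) • z := smul_right_injective ℂ h0
    refine ⟨fun v => (D : ℝ) • p v, ⟨fun u hu v hv e => h1.1 u hu v hv (inj e),
      fun e he v hv hs => h1.2 e he v hv ?_⟩, fun v a b ha hb hab => ?_, fun v hv => ?_⟩
    · obtain ⟨s, r, hs0, hr0, hsr, e1⟩ := hs
      refine ⟨s, r, hs0, hr0, hsr, inj ?_⟩
      dsimp only at e1 ⊢
      rw [← e1, smul_add, smul_comm, smul_comm (D : ℝ) r]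
    · have := h2 v a b ha hb hab
      unfold EuclideanGeometry.angle at this ⊢
      simp only [vsub_eq_sub] at this ⊢
      rwa [← smul_sub, ← smul_sub, InnerProductGeometry.angle_smul_smul h0]
    · obtain ⟨m, hm⟩ := hl (p v).re (List.mem_flatMap.2 ⟨v, hv, by simp⟩)
      obtain ⟨n, hn⟩ := hl (p v).im (List.mem_flatMap.2 ⟨v, hv, by simp⟩)
      exact ⟨m, n, by simpa using hm, by simpa using hn⟩

theorem rat_iff (t : Tm) : (∃ x : ℕ → ℝ, (∀ i, x i ∈ (Rat.castHom ℝ).fieldRange) ∧ t.eval x = 0) ↔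
    ∃ x : ℕ → ℚ, t.eval (fun i => (x i : ℝ)) = 0 := by
  constructor
  · rintro ⟨x, hx, h⟩
    choose q hq using fun i => RingHom.mem_fieldRange.1 (hx i)
    exact ⟨q, by rw [← h]; congr 1; funext i; exact hq i⟩
  · rintro ⟨x, h⟩
    exact ⟨_, fun i => RingHom.mem_fieldRange.2 ⟨x i, rfl⟩, h⟩

end Pool.Agent.FS.AngUniv
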