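import Pool.Agent.Lib.MP_a4368a_lc.Poly

/-! Drawings with coordinates in a subfield give solutions in that subfield. -/

namespace Pool.Agent.FS.AngUniv

open Pool.Agent.Lib.MP_a4368a_lc

/-- the square of the width of a wire lies in the field of the coordinates -/
theorem width_sq {α : Type} {adj : α → α → Prop} {p : α → ℂ} {ψ : ℕ → α} {a b : ℕ} {ρ : ℝ}
    (K : Subfield ℝ) (h : Pt adj p ψ a b ρ) {w : α} (ho : Out ψ w) (ha : adj (ψ a) w)
    (k1 : (p (ψ a)).re ∈ K ∧ (p (ψ a)).im ∈ K) (k2 : (p (ψ b)).re ∈ K ∧ (p (ψ b)).im ∈ K)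
    (k3 : (p w).re ∈ K ∧ (p w).im ∈ K) : ρ ^ 2 ∈ K := by
  obtain ⟨d, ⟨hd, hw⟩, h2⟩ := h
  obtain ⟨r, hr, e⟩ := (h2 w ho).1 ha
  have hn : Complex.normSq d ≠ 0 := by simpa using hd
  have e1 : crs d (p (ψ b) - p (ψ a)) ^ 2 = ρ ^ 2 * Complex.normSq d := by
    rw [← sq_abs, hw, mul_pow, Complex.normSq_eq_norm_sq]
  have e2 : crs (p w - p (ψ a)) (p (ψ b) - p (ψ a)) = r * crs d (p (ψ b) - p (ψ a)) := by
    rw [e]; simp [crs]; ring
  have e3 : Complex.normSq (p w - p (ψ a)) = r ^ 2 * Complex.normSq d := by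
    rw [e, map_mul, Complex.normSq_ofReal, sq]
  have e4 : ρ ^ 2 = crs (p w - p (ψ a)) (p (ψ b) - p (ψ a)) ^ 2 /
      Complex.normSq (p w - p (ψ a)) := by
    rw [e2, e3, mul_pow, e1]
    field_simp
  rw [e4]
  simp only [crs, Complex.normSq_apply, Complex.sub_re, Complex.sub_im]
  exact div_mem (pow_mem (sub_mem (mul_mem (sub_mem k3.1 k1.1) (sub_mem k2.2 k1.2))
    (mul_mem (sub_mem k3.2 k1.2) (sub_mem k2.1 k1.1))) 2)
    (add_mem (mul_mem (sub_mem k3.1 k1.1) (sub_mem k3.1 k1.1))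
      (mul_mem (sub_mem k3.2 k1.2) (sub_mem k3.2 k1.2)))

/-- soundness of the gadgets, with the squares of the values in the field of the coordinates -/
theorem soundK (cs : List Con) (hcs : ∀ j < 3 * cs.length, occ cs j < 3 * cs.length) {p : GV → ℂ}
    (h : Good (Adj (edges cs)) p) (K : Subfield ℝ)
    (hK : ∀ v ∈ verts cs, (p v).re ∈ K ∧ (p v).im ∈ K) :
    ∃ val : ℕ → ℝ, (∀ i < 3 * cs.length, val i ^ 2 ∈ K) ∧ ∀ c ∈ cs, 0 < val c.2.1 ∧ 0 < val c.2.2.1 ∧
      0 < val c.2.2.2 ∧ Rel c.1 (val c.2.1) (val c.2.2.1) (val c.2.2.2) := by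
  set N := 3 * cs.length with hN
  set adj := Adj (edges cs)
  have grid : ∀ i j, ∃ s r : ℝ, i < N → j < N →
      Pt adj p (fun l => ((i + 1, j), l)) (pS 0) (pS 1) s ∧
      Pt adj p (fun l => ((i + 1, j), l)) (pW (ty cs (i + 1, j)) 0) (pW (ty cs (i + 1, j)) 1) r ∧
      Pt adj p (fun l => ((i + 1, j), l)) (pE (ty cs (i + 1, j)) 0) (pE (ty cs (i + 1, j)) 1) r ∧
      (i ≠ occ cs j → Pt adj p (fun l => ((i + 1, j), l)) (pN 0 0) (pN 0 1) s) ∧
      (i = occ cs j → s = 8 * (r / 10)) := by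
    intro i j
    by_cases hij : i < N ∧ j < N
    · have E := emb_cell cs (i + 1, j) (mem_cells.2 (Or.inr ⟨by simp, by simp; omega, hij.2⟩))
      by_cases ho : i = occ cs j
      · have ht : ty cs (i + 1, j) = 1 := by rw [ty_grid, if_pos ho]
        rw [ht] at E ⊢
        obtain ⟨r, a, b, c⟩ := sound_join h E
        exact ⟨8 * r, 10 * r, fun _ _ => ⟨a, b, c, fun hn => absurd ho hn, fun _ => by ring⟩⟩
      · have ht : ty cs (i + 1, j) = 0 := by rw [ty_grid, if_neg ho]
        rw [ht] at E ⊢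
        obtain ⟨s, r, a, b, c, d⟩ := sound_cross h E
        exact ⟨s, r, fun _ _ => ⟨b, c, d, fun _ => a, fun hn => absurd hn ho⟩⟩
    · exact ⟨0, 0, fun h1 h2 => absurd ⟨h1, h2⟩ hij⟩
  choose S R hSR using grid
  have row : ∀ i < N, ∀ j < N, R i j = R i 0 := by
    intro i hi j
    induction j with
    | zero => intro _; rfl
    | succ j ih =>
      intro hj
      rw [← ih (by omega)]
      have lk : ∀ k < 2, adj (hlink cs i j k).1 (hlink cs i j k).2 := fun k hk =>
        Or.inl (mem_edges.2 (Or.inr (Or.inr ⟨i, j, k, hi, hj, hk, rfl⟩)))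
      exact (pt_link h (hSR i j hi (by omega)).2.2.1 (hSR i (j + 1) hi hj).2.1 (by simp)
        (lk 0 (by omega)) (lk 1 (by omega))).symm
  have col : ∀ j < N, ∀ i ≤ occ cs j, S i j = S 0 j := by
    intro j hj i
    have := hcs j hj
    induction i with
    | zero => intro _; rfl
    | succ i ih =>
      intro hi
      rw [← ih (by omega)]
      have hb : below (i + 1) j = (i + 1, j) := by simp [below]
      have ht : ty cs (i + 1, j) = 0 := by rw [ty_grid, if_neg (by omega)]
      have lk : ∀ k < 2, adj ((i + 1 + 1, j), pS k) ((i + 1, j), pN 0 k) := fun k hk => by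
        have : adj (vlink cs (i + 1) j k).1 (vlink cs (i + 1) j k).2 :=
          Or.inl (mem_edges.2 (Or.inr (Or.inl ⟨i + 1, j, k, by omega, hj, hk, by rw [hb, ht]; omega, rfl⟩)))
        simpa [vlink, hb, ht, sub] using this
      exact pt_link h (hSR (i + 1) j (by omega) hj).1 ((hSR i j (by omega) hj).2.2.2.1 (by omega))
        (by simp) (lk 0 (by omega)) (lk 1 (by omega))
  have colv : ∀ j < N, S 0 j = 8 * (R (occ cs j) 0 / 10) := by
    intro j hj
    rw [← col j hj _ le_rfl, ← row _ (hcs j hj) j hj]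
    exact (hSR _ j (hcs j hj) hj).2.2.2.2 rfl
  refine ⟨fun i => R i 0 / 10, fun i hi => ?_, fun c hc => ?_⟩
  · have lk : ∀ k < 2, hlink cs i 0 k ∈ edges cs := fun k hk =>
      mem_edges.2 (Or.inr (Or.inr ⟨i, 0, k, hi, by omega, hk, rfl⟩))
    have hw := width_sq K (hSR i 0 hi (by omega)).2.2.1 (w := (hlink cs i 0 0).2)
      (fun l _ he => by simpa [hlink] using congrArg (fun v : GV => v.1.2) he)
      (Or.inl (lk 0 (by omega))) (hK _ (edges_wf cs _ (lk 0 (by omega))).1)
      (hK _ (edges_wf cs _ (lk 1 (by omega))).1) (hK _ (edges_wf cs _ (lk 0 (by omega))).2.1)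
    rw [div_pow]
    exact div_mem hw (pow_mem (ofNat_mem K 10) 2)
  obtain ⟨k, hk, rfl⟩ := List.getElem_of_mem hc
  have hg : cs.getD k (0, 0, 0, 0) = cs[k] := by simp [hk]
  have E := emb_cell cs (0, k) (mem_cells.2 (Or.inl ⟨rfl, hk⟩))
  have G : GOut adj (fun l => (((0, k), l) : GV)) cs[k].1 (ty cs (0, k)) p := by
    rw [ty_zero, hg] at E ⊢
    unfold gty at E ⊢
    split_ifs at E ⊢ with h0 h1
    · rw [h0]; exact sound_mid h E
    · rw [h1]; exact sound_quad h E
    · exact sound_neq h E _ h0 h1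
  obtain ⟨a, b, c, ha, hb, hc, rel, p0, p1, p2⟩ := G
  have t1 : ty cs (0, k) ≠ 1 := by have := (ty_ge cs (0, k)).2 rfl; omega
  have key : ∀ q < 3, ∀ x : ℝ, Pt adj p (fun l => (((0, k), l) : GV)) (pN (ty cs (0, k)) (2 * q))
      (pN (ty cs (0, k)) (2 * q + 1)) (8 * x) → R (occ cs (3 * k + q)) 0 / 10 = x := by
    intro q hq x hx
    have hj : 3 * k + q < N := by omega
    have hb : below 0 (3 * k + q) = (0, k) := by simp [below]; omega
    have hs : sub 0 (3 * k + q) = 2 * q := by simp [sub]; omega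
    have lk : ∀ m < 2, adj ((0 + 1, 3 * k + q), pS m) ((0, k), pN (ty cs (0, k)) (2 * q + m)) :=
      fun m hm => by
        have : adj (vlink cs 0 (3 * k + q) m).1 (vlink cs 0 (3 * k + q) m).2 :=
          Or.inl (mem_edges.2 (Or.inr (Or.inl ⟨0, _, m, by omega, hj, hm, by rw [hb]; exact t1, rfl⟩)))
        simpa only [vlink, hb, hs] using this
    have := pt_link h (hSR 0 _ (by omega) hj).1 hx (by simp) (lk 0 (by omega)) (lk 1 (by omega))
    rw [colv _ hj] at this
    linarith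
  have o0 : occ cs (3 * k + 0) = cs[k].2.1 := by simp [occ, hk]
  have o1 : occ cs (3 * k + 1) = cs[k].2.2.1 := by
    have : (3 * k + 1) / 3 = k := by omega
    simp [occ, this, hk]
  have o2 : occ cs (3 * k + 2) = cs[k].2.2.2 := by
    have : (3 * k + 2) / 3 = k := by omega
    simp [occ, this, hk]
  have e0 := key 0 (by omega) a p0
  have e1 := key 1 (by omega) b p1
  have e2 := key 2 (by omega) c p2
  rw [o0] at e0
  rw [o1] at e1
  rw [o2] at e2
  simp only [e0, e1, e2]
  exact ⟨ha, hb, hc, rel⟩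

/-- the solution read off from the values -/
theorem primsK {cs : List RCon} {val : PV → ℝ}
    (h : ∀ c ∈ prims cs, Rel c.1 (val c.2.1) (val c.2.2.1) (val c.2.2.2)) :
    val (.inl vO) - val (.inl vZ) ≠ 0 ∧
      RSat (fun v => (val (.inl v) - val (.inl vZ)) / (val (.inl vO) - val (.inl vZ))) cs := by
  have hu : val (.inl vO) - val (.inl vZ) ≠ 0 := by
    have := h _ List.mem_cons_self
    simp only [Lib.MP_a4368a_lc.Rel, OfNat.ofNat_ne_zero, OfNat.ofNat_ne_one, if_false] at this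
    exact sub_ne_zero.2 this
  refine ⟨hu, fun c hc => ?_⟩
  have hp : ∀ d ∈ prim c, Rel d.1 (val d.2.1) (val d.2.2.1) (val d.2.2.2) := fun d hd =>
    h d (List.mem_cons_of_mem _ (List.mem_flatMap.2 ⟨c, hc, hd⟩))
  unfold prim at hp
  unfold RHolds
  split_ifs at hp ⊢ with h1
  · simp only [List.mem_cons, List.not_mem_nil, or_false, forall_eq_or_imp, forall_eq, Lib.MP_a4368a_lc.Rel,
      if_true] at hp
    field_simp
    linarith [hp.1, hp.2]
  · simp only [List.mem_cons, List.not_mem_nil, or_false, forall_eq_or_imp, forall_eq, Lib.MP_a4368a_lc.Rel,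
      if_true, one_ne_zero, if_false] at hp
    obtain ⟨a1, a2, a3, a4, a5, a6, a7, a8, a9, a10, a11, a12, a13, a14, a15, a16⟩ := hp
    field_simp
    generalize val (.inl vZ) = W at *
    generalize val (.inl vO) = U at *
    generalize val (.inl c.2.1) = x at *
    generalize val (.inl c.2.2.1) = y at *
    generalize val (.inl c.2.2.2) = z at *
    have e3 : val (.inr (c, 3)) = (x + y) / 2 := by linarith
    have e4 : val (.inr (c, 4)) = (x + 2 * W - y) / 2 := by linarith
    have e5 : val (.inr (c, 5)) = (z + U) / 2 := by linarith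
    have e6 : val (.inr (c, 6)) = (z + 2 * W - U) / 2 := by linarith
    have e : val (.inr (c, 7)) + val (.inr (c, 10)) + y = val (.inr (c, 8)) + val (.inr (c, 9)) + U := by
      linarith
    rw [e3] at a7
    rw [e4] at a8
    rw [e5] at a9
    rw [e6] at a10
    linear_combination a7 - a8 - a9 + a10 - 2 * W * e

/-- a solution of the system of a formula satisfies the formula -/
theorem tseK {f : RV → ℝ} (h0 : f vZ = 0) (h1 : f vO = 1) (φ : Fm) (h : RSat f (tse φ.code)) :
    φ.Holds (xOf f) := by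
  have hw : stk φ.code = [(true, φ.code)] := run_fm φ []
  rw [tse, if_pos hw] at h
  have inv : ∀ i ≤ φ.code.length, ∀ it ∈ stk (φ.code.take i), IsItem (xOf f) it (f (it.2, 0)) := by
    intro i
    induction i with
    | zero => simp [stk]
    | succ i ih =>
      intro hi
      rw [stk_succ _ hi]
      refine step_inv h0 h1 (ih (by omega)) fun c hc => h c (List.mem_cons_of_mem _ ?_)
      exact List.mem_flatMap.2 ⟨i, List.mem_range.2 hi, hc⟩
  have v := (inv _ le_rfl (true, φ.code) (by rw [List.take_length, hw]; simp)).ev []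
  rw [ev_fm] at v
  simp only [List.cons.injEq, and_true] at v
  have h2 := h _ List.mem_cons_self
  simp only [RHolds, if_true, h0, h1, add_zero] at h2
  rw [h2, ind] at v
  by_contra hn
  simp [hn] at v

/-- the system of a word, with one more midpoint for each letter -/
def sys (w : List ℕ) : List RCon :=
  tse w ++ (vO :: w.map fun k => (([k], 0) : RV)).map fun v => (true, v, vZ, v)

theorem sys_field (φ : Fm) {p : GV → ℂ} (h : Good (Adj (edges (numb (prims (sys φ.code))))) p)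
    (K : Subfield ℝ) (hK : ∀ v ∈ verts (numb (prims (sys φ.code))), (p v).re ∈ K ∧ (p v).im ∈ K) :
    ∃ x : ℕ → ℝ, φ.Holds x ∧ ∀ i, i + 11 ∈ φ.code → x i ∈ K := by
  obtain ⟨val, hsq, hv⟩ := soundK _ (occ_numb _) h K hK
  set ps := prims (sys φ.code) with hps
  have hlen : 3 * (numb ps).length = (occs ps).length := by rw [length_occs]; simp [numb]
  obtain ⟨hu, hsat⟩ := primsK (cs := sys φ.code) (val := fun v => val (idx (occs ps) v)) fun c hc =>
    (hv _ (List.mem_map.2 ⟨c, hc, rfl⟩)).2.2.2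
  have key : ∀ v ∈ vO :: φ.code.map fun k => (([k], 0) : RV),
      val (idx (occs ps) (.inl vZ)) ≠ 0 ∧ (val (idx (occs ps) (.inl v)) -
        val (idx (occs ps) (.inl vZ))) * val (idx (occs ps) (.inl vZ)) ∈ K := by
    intro v hm
    have hc : ((true, v, vZ, v) : RCon) ∈ sys φ.code :=
      List.mem_append_right _ (List.mem_map.2 ⟨v, hm, rfl⟩)
    have hp : ((0, .inl v, .inl vZ, .inr ((true, v, vZ, v), 0)) : PCon) ∈ ps :=
      List.mem_cons_of_mem _ (List.mem_flatMap.2 ⟨_, hc, by simp [prim]⟩)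
    obtain ⟨-, z0, -, rel⟩ := hv _ (List.mem_map.2 ⟨_, hp, rfl⟩)
    obtain ⟨o1, o2, o3⟩ := mem_occs hp
    have s1 := hsq _ (hlen ▸ idx_lt o1)
    have s2 := hsq _ (hlen ▸ idx_lt o2)
    have s3 := hsq _ (hlen ▸ idx_lt o3)
    simp only [Lib.MP_a4368a_lc.Rel, if_true] at rel z0 s1 s2 s3
    refine ⟨z0.ne', ?_⟩
    generalize val (idx (occs ps) (.inl v)) = a at *
    generalize val (idx (occs ps) (.inl vZ)) = z at *
    generalize val (idx (occs ps) (.inr ((true, v, vZ, v), 0))) = m at *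
    have e : (a - z) * z = (4 * m ^ 2 - a ^ 2 - 3 * z ^ 2) / 2 := by
      linear_combination (a + z + 2 * m) / 2 * rel
    rw [e]
    exact div_mem (sub_mem (sub_mem (mul_mem (ofNat_mem K 4) s3) s1) (mul_mem (ofNat_mem K 3) s2))
      (ofNat_mem K 2)
  refine ⟨_, tseK (by simp) (div_self hu) φ fun c hc => hsat c (List.mem_append_left _ hc),
    fun i hi => ?_⟩
  obtain ⟨z0, k1⟩ := key ([i + 11], 0)
    (List.mem_cons_of_mem _ (List.mem_map.2 ⟨i + 11, hi, rfl⟩))
  obtain ⟨-, k2⟩ := key vO List.mem_cons_self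
  have := div_mem k1 k2
  rwa [mul_div_mul_right _ _ z0] at this

theorem good_of {α : Type} {V : List α} {E : List (α × α)} (hG : IsGraph V E) {p : α → ℂ}
    (h1 : IsDrawing V E p) (h2 : ∀ v a b, Adj E v a → Adj E v b → a ≠ b →
      Real.pi / 4 ≤ EuclideanGeometry.angle (p a) (p v) (p b)) : Good (Adj E) p := by
  have ne : ∀ u v, Adj E u v → p u ≠ p v := by
    rintro u v (h | h) e
    · exact (hG _ h).2.2 (h1.1 _ (hG _ h).1 _ (hG _ h).2.1 e)
    · exact (hG _ h).2.2 (h1.1 _ (hG _ h).1 _ (hG _ h).2.1 e.symm)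
  exact ⟨fun u v h => h.symm, ne, fun v a b ha hb hab =>
    (angle_iff (sub_ne_zero.2 (ne _ _ ha).symm) (sub_ne_zero.2 (ne _ _ hb).symm)).1
      (h2 v a b ha hb hab)⟩

end Pool.Agent.FS.AngUniv
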